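import Pool.Agent.Helper77_MVD.KP2

/-!
MVD, row KAP: `F1L` for isolated places.
-/

set_option autoImplicit false

namespace Pool.Agent.MVD.H77

open Pool.Agent.Helper14_MV Pool.Agent.Helper2_MV

theorem rtr {β : FIC} {a b c : List ℕ} (h : RR β a b) (h' : RR β b c) : RR β a c := β.trans h h'

/-- the places -/
def pre (P : List ℕ) : List ℕ := P.flatMap (fun e => [3 * e + 1, 3 * (e + 1) + 2])

theorem pre_cons (a : ℕ) (P : List ℕ) : pre (a :: P) = [3 * a + 1, 3 * (a + 1) + 2] ++ pre P := by
  unfold pre
  rw [List.flatMap_cons]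

theorem mem_pre {P : List ℕ} {x : ℕ} :
    x ∈ pre P ↔ ∃ e ∈ P, x = 3 * e + 1 ∨ x = 3 * (e + 1) + 2 := by
  unfold pre
  rw [List.mem_flatMap]
  simp only [List.mem_cons, List.not_mem_nil, or_false]

theorem wm_eq (P Q L : List ℕ) : Wm P Q L = pre P ++ (L ++ 2 :: pre Q) := by
  unfold Wm Bw pre
  rw [List.flatMap_append, List.flatMap_cons, List.flatMap_map, List.flatMap_map]
  simp

theorem mem_zs {D : List ℕ} {x : ℕ} : x ∈ zs D ↔ ∃ e ∈ D, x = 3 * e + 1 := by
  unfold zs
  rw [List.mem_map]
  constructor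
  · rintro ⟨e, he, rfl⟩
    exact ⟨e, he, rfl⟩
  · rintro ⟨e, he, rfl⟩
    exact ⟨e, he, rfl⟩

theorem zs_append (D E : List ℕ) : zs (D ++ E) = zs D ++ zs E := by
  unfold zs
  rw [List.map_append]

theorem zs_cons (a : ℕ) (E : List ℕ) : zs (a :: E) = (3 * a + 1) :: zs E := rfl

theorem f1_one {β : FIC} {k : ℕ} (hF : F1Lk β k) {p q : List ℕ} {x y : ℕ} (hxy : x ≠ y)
    (hx : x ∈ p ++ q) : RR β (p ++ y :: x :: y :: q) (p ++ x :: y :: y :: q) :=
  hF p [] q x y (Nat.zero_le k) hxy hx (fun _ ha => absurd ha List.not_mem_nil)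

theorem mv {β : FIC} {k : ℕ} (hF : F1Lk β k) : ∀ (E p q : List ℕ), E.length ≤ k + 1 →
    (∀ a ∈ E, 3 * a + 1 ∈ p ++ q) →
    RR β (p ++ 0 :: (zs E ++ 0 :: q)) (p ++ (zs E ++ 0 :: 0 :: q)) := by
  intro E
  induction E with
  | nil =>
    intro p q _ _
    exact RR.refl _
  | cons a E ih =>
    intro p q hlen hmem
    have hlen' : E.length ≤ k := by
      rw [List.length_cons] at hlen
      omega
    have h1 := hF p (zs E) q (3 * a + 1) 0 (by unfold zs; rw [List.length_map]; exact hlen')
      (by omega) (by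
        have h := hmem a List.mem_cons_self
        rw [List.mem_append] at h ⊢
        rcases h with h | h
        · exact Or.inl h
        · exact Or.inr (List.mem_append_right _ h)) (by
        intro x hx
        obtain ⟨b, hb, rfl⟩ := mem_zs.1 hx
        have h := hmem b (List.mem_cons_of_mem a hb)
        have c1 : 1 ≤ (zs E).count (3 * b + 1) := List.count_pos_iff.2 hx
        have c2 : 1 ≤ p.count (3 * b + 1) + q.count (3 * b + 1) := by
          rw [← List.count_append]
          exact List.count_pos_iff.2 h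
        rw [List.count_append, List.count_cons, List.count_cons, List.count_append,
          List.count_cons]
        omega)
    have h2 := ih (p ++ [3 * a + 1]) q (by omega) (fun b hb => by
      have h := hmem b (List.mem_cons_of_mem a hb)
      rw [List.mem_append] at h ⊢
      rcases h with h | h
      · exact Or.inl (List.mem_append_left _ h)
      · exact Or.inr h)
    rw [List.append_assoc, List.append_assoc] at h2
    exact rtr h1 h2

theorem mv2 {β : FIC} {k : ℕ} (hF : F1Lk β k) (cty : CtyStmt) : ∀ (E p q : List ℕ),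
    (∀ e ∈ E, (A2 β ∧ 3 * e + 1 ∈ q) ∨ (B3 β ∧ 3 * e + 1 ∈ p)) →
    RR β (p ++ 0 :: 0 :: (zs E ++ q)) (p ++ (zs E ++ 0 :: 0 :: q)) := by
  intro E
  induction E with
  | nil =>
    intro p q _
    exact RR.refl _
  | cons a E ih =>
    intro p q hmem
    have hA : RR β (p ++ 0 :: (3 * a + 1) :: 0 :: (zs E ++ q))
        (p ++ 0 :: 0 :: (3 * a + 1) :: (zs E ++ q)) := by
      rcases hmem a List.mem_cons_self with ⟨h, hq⟩ | ⟨h, hp⟩
      · exact (cty β).2.1 h p (zs E ++ q) (3 * a + 1) 0 (List.mem_append_right _ hq)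
      · exact (cty β).2.2.2.1 h p (zs E ++ q) (3 * a + 1) 0 hp
    have hB : RR β (p ++ 0 :: (3 * a + 1) :: 0 :: (zs E ++ q))
        (p ++ (3 * a + 1) :: 0 :: 0 :: (zs E ++ q)) := by
      refine f1_one hF (by omega) ?_
      rcases hmem a List.mem_cons_self with ⟨h, hq⟩ | ⟨h, hp⟩
      · exact List.mem_append_right _ (List.mem_append_right _ hq)
      · exact List.mem_append_left _ hp
    have h2 := ih (p ++ [3 * a + 1]) q (fun b hb => by
      rcases hmem b (List.mem_cons_of_mem a hb) with h | ⟨h, hp⟩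
      · exact Or.inl h
      · exact Or.inr ⟨h, List.mem_append_left _ hp⟩)
    rw [List.append_assoc, List.append_assoc] at h2
    exact rtr (rtr hA.symm hB) h2

theorem flatMap_pre (g : ℕ → List ℕ) (e : ℕ) (h1 : ∀ a, a ≠ e → g (3 * a + 1) = [])
    (h2 : ∀ a, a ≠ e → g (3 * (a + 1) + 2) = []) : ∀ P : List ℕ,
    (pre P).flatMap g = (List.replicate (P.count e) (g (3 * e + 1) ++ g (3 * (e + 1) + 2))).flatten := by
  intro P
  induction P with
  | nil => rfl
  | cons a P ih =>
    rw [pre_cons, List.flatMap_append, ih, List.flatMap_cons, List.flatMap_cons, List.flatMap_nil,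
      List.append_nil]
    by_cases ha : a = e
    · subst ha
      rw [List.count_cons_self, List.replicate_succ, List.flatten_cons]
    · rw [h1 a ha, h2 a ha, List.count_cons_of_ne ha]
      rfl

theorem flatMap_zs (g : ℕ → List ℕ) (e : ℕ) (h1 : ∀ a, a ≠ e → g (3 * a + 1) = []) :
    ∀ D : List ℕ, (zs D).flatMap g = (List.replicate (D.count e) (g (3 * e + 1))).flatten := by
  intro D
  induction D with
  | nil => rfl
  | cons a D ih =>
    rw [zs_cons, List.flatMap_cons, ih]
    by_cases ha : a = e
    · subst ha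
      rw [List.count_cons_self, List.replicate_succ, List.flatten_cons]
    · rw [h1 a ha, List.count_cons_of_ne ha]
      rfl

theorem count_range {e m : ℕ} (he : e < m) {D : List ℕ} (hD : D.Perm (List.range m)) :
    D.count e = 1 := by
  rw [hD.count_eq]
  exact List.count_eq_one_of_mem List.nodup_range (List.mem_range.2 he)

/-- the identity `A2` or `B3` from a letter after the letters `0` -/
theorem get_id {β : FIC} {m : ℕ} {P Q E1 E2 E3 : List ℕ} (hPQ : (P ++ Q).Perm (List.range m))
    (hE : (E1 ++ (E2 ++ E3)).Perm (List.range m))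
    (h : RR β (Wm P Q (0 :: (zs (List.range m) ++ [0])))
      (Wm P Q (zs E1 ++ 0 :: (zs E2 ++ 0 :: zs E3)))) {e : ℕ} (he : e ∈ E3) :
    (A2 β ∧ e ∈ Q) ∨ (B3 β ∧ e ∈ P) := by
  have hem : e < m := by
    rw [← List.mem_range, ← hE.mem_iff]
    exact List.mem_append_right _ (List.mem_append_right _ he)
  have c1 := count_range hem hPQ
  have c2 := count_range hem hE
  have c3 : 1 ≤ E3.count e := List.count_pos_iff.2 he
  have c4 := count_range hem (List.Perm.refl (List.range m))
  rw [List.count_append] at c1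
  rw [List.count_append, List.count_append] at c2
  have d1 : E1.count e = 0 := by omega
  have d2 : E2.count e = 0 := by omega
  have d3 : E3.count e = 1 := by omega
  rw [wm_eq, wm_eq] at h
  by_cases hQ : e ∈ Q
  · left
    refine ⟨?_, hQ⟩
    have q1 : 1 ≤ Q.count e := List.count_pos_iff.2 hQ
    have q2 : Q.count e = 1 := by omega
    have q3 : P.count e = 0 := by omega
    obtain ⟨g, g0, g1, g2, g3, g4, g5⟩ : ∃ g : ℕ → List ℕ, g 0 = [3] ∧
        (∀ a, a ≠ e → g (3 * a + 1) = []) ∧ (∀ a, a ≠ e → g (3 * (a + 1) + 2) = []) ∧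
        g (3 * e + 1) = [0] ∧ g (3 * (e + 1) + 2) = [] ∧ g 2 = [2] := by
      refine ⟨fun c => if c = 0 then [3] else if c = 3 * e + 1 then [0] else
        if c = 2 then [2] else [], ?_, fun a ha => ?_, fun a ha => ?_, ?_, ?_, ?_⟩
      · exact if_pos rfl
      · exact (if_neg (by omega)).trans ((if_neg (by omega)).trans (if_neg (by omega)))
      · exact (if_neg (by omega)).trans ((if_neg (by omega)).trans (if_neg (by omega)))
      · exact (if_neg (by omega)).trans (if_pos rfl)
      · exact (if_neg (by omega)).trans ((if_neg (by omega)).trans (if_neg (by omega)))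
      · exact (if_neg (by omega)).trans ((if_neg (by omega)).trans (if_pos rfl))
    have h1 := h.sub g
    simp only [List.flatMap_append, List.flatMap_cons, List.flatMap_nil, flatMap_pre g e g1 g2,
      flatMap_zs g e g1, g0, g3, g4, g5, c4, d1, d2, d3, q2, q3, List.replicate_zero,
      List.replicate_one, List.flatten_nil, List.flatten_cons, List.append_nil, List.nil_append,
      List.cons_append] at h1
    exact h1
  · right
    have q0 : Q.count e = 0 := List.count_eq_zero.2 hQ
    have q2 : P.count e = 1 := by omega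
    refine ⟨?_, List.count_pos_iff.1 (by omega)⟩
    obtain ⟨g, g0, g1, g2, g3, g4, g5⟩ : ∃ g : ℕ → List ℕ, g 0 = [3] ∧
        (∀ a, a ≠ e → g (3 * a + 1) = []) ∧ (∀ a, a ≠ e → g (3 * (a + 1) + 2) = []) ∧
        g (3 * e + 1) = [0] ∧ g (3 * (e + 1) + 2) = [2] ∧ g 2 = [] := by
      refine ⟨fun c => if c = 0 then [3] else if c = 3 * e + 1 then [0] else
        if c = 3 * (e + 1) + 2 then [2] else [], ?_, fun a ha => ?_, fun a ha => ?_, ?_, ?_, ?_⟩
      · exact if_pos rfl
      · exact (if_neg (by omega)).trans ((if_neg (by omega)).trans (if_neg (by omega)))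
      · exact (if_neg (by omega)).trans ((if_neg (by omega)).trans (if_neg (by omega)))
      · exact (if_neg (by omega)).trans (if_pos rfl)
      · exact (if_neg (by omega)).trans ((if_neg (by omega)).trans (if_pos rfl))
      · exact (if_neg (by omega)).trans ((if_neg (by omega)).trans (if_neg (by omega)))
    have h1 := h.sub g
    simp only [List.flatMap_append, List.flatMap_cons, List.flatMap_nil, flatMap_pre g e g1 g2,
      flatMap_zs g e g1, g0, g3, g4, g5, c4, d1, d2, d3, q2, q0, List.replicate_zero,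
      List.replicate_one, List.flatten_nil, List.flatten_cons, List.append_nil, List.nil_append,
      List.cons_append] at h1
    exact h1

theorem list_zs {m : ℕ} (l : List ℕ) (h : ∀ x ∈ l, x ∈ zs (List.range m)) :
    l = zs (l.map fun x => x / 3) := by
  unfold zs
  rw [List.map_map]
  conv_lhs => rw [← List.map_id l]
  refine List.map_congr_left fun x hx => ?_
  obtain ⟨e, _, rfl⟩ := mem_zs.1 (h x hx)
  show 3 * e + 1 = 3 * ((3 * e + 1) / 3) + 1
  omega

theorem map_zs (D : List ℕ) : (zs D).map (fun x => x / 3) = D := by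
  unfold zs
  rw [List.map_map]
  conv_rhs => rw [← List.map_id D]
  refine List.map_congr_left fun x _ => ?_
  show (3 * x + 1) / 3 = x
  omega

theorem decomp {m : ℕ} {L : List ℕ} (hL : L.Perm (0 :: (zs (List.range m) ++ [0]))) :
    ∃ E1 E2 E3 : List ℕ, L = zs E1 ++ 0 :: (zs E2 ++ 0 :: zs E3) ∧
      (E1 ++ (E2 ++ E3)).Perm (List.range m) := by
  have h0 : (0 : ℕ) ∈ L := hL.mem_iff.2 List.mem_cons_self
  obtain ⟨X, Y, rfl, hX⟩ := List.eq_append_cons_of_mem h0
  have h1 : (X ++ Y).Perm (zs (List.range m) ++ [0]) :=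
    (List.perm_cons 0).1 ((List.perm_middle.symm).trans hL)
  have h2 : (0 : ℕ) ∈ Y := by
    have h3 : (0 : ℕ) ∈ X ++ Y := h1.mem_iff.2 (List.mem_append_right _ (List.mem_singleton_self 0))
    rcases List.mem_append.1 h3 with h | h
    · exact absurd h hX
    · exact h
  obtain ⟨Y1, Y2, rfl, _⟩ := List.eq_append_cons_of_mem h2
  have h3 : (X ++ (Y1 ++ Y2)).Perm (zs (List.range m)) := by
    have h4 : (X ++ (Y1 ++ 0 :: Y2)).Perm (0 :: (X ++ (Y1 ++ Y2))) := by
      rw [← List.append_assoc, ← List.append_assoc]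
      exact List.perm_middle
    have h5 : (zs (List.range m) ++ [0]).Perm (0 :: zs (List.range m)) :=
      List.perm_append_singleton 0 (zs (List.range m))
    exact (List.perm_cons 0).1 (h4.symm.trans (h1.trans h5))
  have m1 : ∀ x ∈ X, x ∈ zs (List.range m) := fun x hx =>
    h3.mem_iff.1 (List.mem_append_left _ hx)
  have m2 : ∀ x ∈ Y1, x ∈ zs (List.range m) := fun x hx =>
    h3.mem_iff.1 (List.mem_append_right _ (List.mem_append_left _ hx))
  have m3 : ∀ x ∈ Y2, x ∈ zs (List.range m) := fun x hx =>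
    h3.mem_iff.1 (List.mem_append_right _ (List.mem_append_right _ hx))
  refine ⟨X.map fun x => x / 3, Y1.map fun x => x / 3, Y2.map fun x => x / 3, ?_, ?_⟩
  · rw [← list_zs X m1, ← list_zs Y1 m2, ← list_zs Y2 m3]
  · rw [← List.map_append, ← List.map_append, ← map_zs (List.range m)]
    exact h3.map _

theorem filt_eq (l : List ℕ) (h : (0 : ℕ) ∉ l) : l.filter (fun c => decide (c ≠ 0)) = l := by
  rw [List.filter_eq_self]
  intro a ha
  simp only [ne_eq, decide_not, Bool.not_eq_eq_eq_not, Bool.not_true, decide_eq_false_iff_not]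
  rintro rfl
  exact h ha

theorem zero_pre (P : List ℕ) : (0 : ℕ) ∉ pre P := by
  intro h
  obtain ⟨e, _, h | h⟩ := mem_pre.1 h <;> omega

theorem two_pre (P : List ℕ) : (2 : ℕ) ∉ pre P := by
  intro h
  obtain ⟨e, _, h | h⟩ := mem_pre.1 h <;> omega

theorem zero_zs (D : List ℕ) : (0 : ℕ) ∉ zs D := by
  intro h
  obtain ⟨e, _, h⟩ := mem_zs.1 h
  omega

theorem two_zs (D : List ℕ) : (2 : ℕ) ∉ zs D := by
  intro h
  obtain ⟨e, _, h⟩ := mem_zs.1 h
  omega

theorem filt_wm (P Q L : List ℕ) : (Wm P Q L).filter (fun c => decide (c ≠ 0))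
    = Wm P Q (L.filter (fun c => decide (c ≠ 0))) := by
  rw [wm_eq, wm_eq, List.filter_append, List.filter_append, List.filter_cons_of_pos (by simp),
    filt_eq _ (zero_pre P), filt_eq _ (zero_pre Q)]

theorem sub2_id (l : List ℕ) (h : (2 : ℕ) ∉ l) :
    l.flatMap (fun c => if c = 2 then [0, 0, 2] else [c]) = l := by
  induction l with
  | nil => rfl
  | cons a l ih =>
    rw [List.flatMap_cons, ih (fun h' => h (List.mem_cons_of_mem a h')), if_neg]
    · rfl
    · rintro rfl
      exact h List.mem_cons_self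

theorem sub2_wm (P Q L : List ℕ) (h : (2 : ℕ) ∉ L) :
    (Wm P Q L).flatMap (fun c => if c = 2 then [0, 0, 2] else [c]) = Wm P Q (L ++ [0, 0]) := by
  rw [wm_eq, wm_eq, List.flatMap_append, List.flatMap_append, List.flatMap_cons,
    sub2_id _ (two_pre P), sub2_id _ (two_pre Q), sub2_id _ h, if_pos rfl]
  simp only [List.append_assoc, List.cons_append, List.nil_append]

theorem sq_move {β : FIC} (cty : CtyStmt) (hSQ : SQ β) {A C A2 C2 : List ℕ}
    (h : A ++ C = A2 ++ C2) : RR β (A ++ 0 :: 0 :: C) (A2 ++ 0 :: 0 :: C2) := by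
  rcases List.append_eq_append_iff.1 h with ⟨u, rfl, rfl⟩ | ⟨u, rfl, rfl⟩
  · rw [List.append_assoc]
    exact (cty β).2.2.2.2 hSQ A u C2 0
  · rw [List.append_assoc]
    exact ((cty β).2.2.2.2 hSQ A2 u C 0).symm

theorem count_wm {m : ℕ} (P Q L : List ℕ) (hPQ : (P ++ Q).Perm (List.range m)) {e : ℕ}
    (he : e < m) : 1 ≤ (pre P).count (3 * e + 1) + (pre Q).count (3 * e + 1) := by
  have h1 : e ∈ P ++ Q := hPQ.mem_iff.2 (List.mem_range.2 he)
  rcases List.mem_append.1 h1 with h | h
  · have : 1 ≤ (pre P).count (3 * e + 1) := List.count_pos_iff.2 (mem_pre.2 ⟨e, h, Or.inl rfl⟩)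
    omega
  · have : 1 ≤ (pre Q).count (3 * e + 1) := List.count_pos_iff.2 (mem_pre.2 ⟨e, h, Or.inl rfl⟩)
    omega

theorem claim_of {β : FIC} {m : ℕ} {P Q D : List ℕ} {w' : List ℕ}
    (h : RR β (bw P Q m) w') (hfil : w'.filter (fun c => decide (c ≠ 0)) = Wm P Q (zs D))
    (hw : RR β w' (Wm P Q (zs D ++ [0, 0]))) :
    RR β (bw P Q m) (Wm P Q (zs (List.range m) ++ [0, 0])) := by
  have h1 := h.filter (fun c => decide (c ≠ 0))
  rw [hfil, bw, filt_wm] at h1
  have h2 : (0 :: (zs (List.range m) ++ [0])).filter (fun c => decide (c ≠ 0))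
      = zs (List.range m) := by
    rw [List.filter_cons_of_neg (by simp), List.filter_append, filt_eq _ (zero_zs _)]
    simp
  rw [h2] at h1
  have h3 := h1.sub (fun c => if c = 2 then [0, 0, 2] else [c])
  rw [sub2_wm _ _ _ (two_zs _), sub2_wm _ _ _ (two_zs _)] at h3
  exact rtr (rtr h hw) h3.symm

theorem kap (pn2 : Pn2Stmt) (shw : ShwStmt) (cty : CtyStmt) : KapStmt := by
  intro β hM h2 h3 hA1 hB2 k hF P Q hPQ
  obtain ⟨w', hw', hN⟩ := pn2 β hM h2 h3 P Q (k + 2) (by omega) hPQ
  have hplace : ∀ e, e < k + 2 → 3 * e + 1 ∈ pre P ∨ 3 * e + 1 ∈ pre Q := by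
    intro e he
    have h1 : e ∈ P ++ Q := hPQ.mem_iff.2 (List.mem_range.2 he)
    rcases List.mem_append.1 h1 with h | h
    · exact Or.inl (mem_pre.2 ⟨e, h, Or.inl rfl⟩)
    · exact Or.inr (mem_pre.2 ⟨e, h, Or.inl rfl⟩)
  have claim : RR β (bw P Q (k + 2)) (Wm P Q (zs (List.range (k + 2)) ++ [0, 0])) := by
    rcases shw β h2 h3 P Q (k + 2) hPQ w' hw' with ⟨L', hL', hwL⟩ | ⟨hSQ, D', hD', hfil, A, C, hAC⟩
    · obtain ⟨E1, E2, E3, rfl, hE⟩ := decomp hL'
      have hlt : ∀ e, e ∈ E1 ∨ e ∈ E2 ∨ e ∈ E3 → e < k + 2 := by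
        intro e he
        rw [← List.mem_range, ← hE.mem_iff, List.mem_append, List.mem_append]
        exact he
      have hlen : E2.length ≤ k + 1 := by
        by_contra hc
        have h4 := hE.length_eq
        rw [List.length_append, List.length_append, List.length_range] at h4
        have e1 : E1 = [] := List.length_eq_zero_iff.1 (by omega)
        have e3 : E3 = [] := List.length_eq_zero_iff.1 (by omega)
        apply hN
        intro e he
        refine ⟨pre P, zs E2, 2 :: pre Q, ?_, ?_⟩
        · rw [hwL, wm_eq, e1, e3]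
          simp [zs]
        · have h5 : e ∈ E1 ++ (E2 ++ E3) := hE.mem_iff.2 (List.mem_range.2 he)
          rw [e1, e3, List.nil_append, List.append_nil] at h5
          exact mem_zs.2 ⟨e, h5, rfl⟩
      refine claim_of hw' (D := E1 ++ (E2 ++ E3)) ?_ ?_
      · rw [hwL, filt_wm]
        congr 1
        rw [List.filter_append, List.filter_cons_of_neg (by simp), List.filter_append,
          List.filter_cons_of_neg (by simp), filt_eq _ (zero_zs _), filt_eq _ (zero_zs _),
          filt_eq _ (zero_zs _), zs_append, zs_append]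
      · have s1 : RR β ((pre P ++ zs E1) ++ 0 :: (zs E2 ++ 0 :: (zs E3 ++ 2 :: pre Q)))
            ((pre P ++ zs E1) ++ (zs E2 ++ 0 :: 0 :: (zs E3 ++ 2 :: pre Q))) := by
          refine mv hF E2 _ _ hlen ?_
          intro a ha
          rcases hplace a (hlt a (Or.inr (Or.inl ha))) with h | h
          · exact List.mem_append_left _ (List.mem_append_left _ h)
          · exact List.mem_append_right _ (List.mem_append_right _ (List.mem_cons_of_mem _ h))
        have s2 : RR β ((pre P ++ zs E1 ++ zs E2) ++ 0 :: 0 :: (zs E3 ++ 2 :: pre Q))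
            ((pre P ++ zs E1 ++ zs E2) ++ (zs E3 ++ 0 :: 0 :: (2 :: pre Q))) := by
          refine mv2 hF cty E3 _ _ ?_
          intro e he
          have hRR : RR β (Wm P Q (0 :: (zs (List.range (k + 2)) ++ [0])))
              (Wm P Q (zs E1 ++ 0 :: (zs E2 ++ 0 :: zs E3))) := by
            rw [← hwL]
            exact hw'
          rcases get_id hPQ hE hRR he with ⟨h, hq⟩ | ⟨h, hp⟩
          · exact Or.inl ⟨h, List.mem_cons_of_mem _ (mem_pre.2 ⟨e, hq, Or.inl rfl⟩)⟩
          · exact Or.inr ⟨h, List.mem_append_left _ (List.mem_append_left _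
              (mem_pre.2 ⟨e, hp, Or.inl rfl⟩))⟩
        rw [hwL, wm_eq, wm_eq, zs_append, zs_append]
        simp only [List.append_assoc, List.cons_append, List.nil_append] at s1 s2 ⊢
        exact rtr s1 s2
    · -- the case SQ
      have hc0 : w'.count 0 = 2 := by
        refine count_two β h2 hw' ?_
        rw [bw, wm_eq]
        simp only [List.count_append, List.count_cons, List.count_nil,
          List.count_eq_zero.2 (zero_pre P), List.count_eq_zero.2 (zero_pre Q),
          List.count_eq_zero.2 (zero_zs (List.range (k + 2)))]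
        simp
      have key : ∀ A C : List ℕ, RR β w' (A ++ 0 :: 0 :: C) → A ++ C = Wm P Q (zs D') →
          RR β w' (Wm P Q (zs D' ++ [0, 0])) := by
        intro A C h4 h5
        rw [wm_eq, ← List.append_assoc] at h5
        have h6 := sq_move cty hSQ h5
        rw [wm_eq]
        simp only [List.append_assoc, List.cons_append, List.nil_append] at h6 ⊢
        exact rtr h4 h6
      refine claim_of hw' hfil ?_
      rcases hAC with rfl | ⟨e, he, rfl⟩
      · rw [List.count_append, List.count_cons_self, List.count_cons_self] at hc0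
        have a0 : (0 : ℕ) ∉ A := List.count_eq_zero.1 (by omega)
        have c0 : (0 : ℕ) ∉ C := List.count_eq_zero.1 (by omega)
        refine key A C (RR.refl _) ?_
        rw [← hfil, List.filter_append, List.filter_cons_of_neg (by simp),
          List.filter_cons_of_neg (by simp), filt_eq _ a0, filt_eq _ c0]
      · rw [List.count_append, List.count_cons_self, List.count_cons_of_ne (by omega),
          List.count_cons_self] at hc0
        have a0 : (0 : ℕ) ∉ A := List.count_eq_zero.1 (by omega)
        have c0 : (0 : ℕ) ∉ C := List.count_eq_zero.1 (by omega)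
        have hfil' : A ++ (3 * e + 1) :: C = Wm P Q (zs D') := by
          rw [← hfil, List.filter_append, List.filter_cons_of_neg (by simp),
            List.filter_cons_of_pos (by simp),
            List.filter_cons_of_neg (by simp), filt_eq _ a0, filt_eq _ c0]
        have hmem : 3 * e + 1 ∈ A ++ C := by
          have h6 := congrArg (List.count (3 * e + 1)) hfil'
          rw [wm_eq, List.count_append, List.count_cons_self, List.count_append,
            List.count_append, List.count_cons_of_ne (by omega)] at h6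
          have h7 := count_wm P Q [] hPQ he
          have h8 : 1 ≤ (zs D').count (3 * e + 1) :=
            List.count_pos_iff.2 (mem_zs.2 ⟨e, hD'.mem_iff.2 (List.mem_range.2 he), rfl⟩)
          rw [← List.count_pos_iff, List.count_append]
          omega
        refine key (A ++ [3 * e + 1]) C ?_ ?_
        · rw [List.append_assoc]
          exact f1_one hF (by omega) hmem
        · rw [List.append_assoc]
          exact hfil'
  refine rtr claim ?_
  have s3 : RR β ((pre P ++ [1]) ++ 0 :: (zs (List.range' 1 (k + 1)) ++ 0 :: (2 :: pre Q)))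
      ((pre P ++ [1]) ++ (zs (List.range' 1 (k + 1)) ++ 0 :: 0 :: (2 :: pre Q))) := by
    refine mv hF _ _ _ (by rw [List.length_range']) ?_
    intro a ha
    have ha2 : a < k + 2 := by
      rw [List.mem_range'] at ha
      obtain ⟨i, hi, rfl⟩ := ha
      omega
    rcases hplace a ha2 with h | h
    · exact List.mem_append_left _ (List.mem_append_left _ h)
    · exact List.mem_append_right _ (List.mem_cons_of_mem _ h)
  have hr : zs (List.range (k + 2)) = 1 :: zs (List.range' 1 (k + 1)) := by
    rw [List.range_eq_range', List.range'_succ, zs_cons]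
  rw [wm_eq, wm_eq, hr]
  simp only [List.append_assoc, List.cons_append, List.nil_append] at s3 ⊢
  exact s3.symm

end Pool.Agent.MVD.H77
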