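import Pool.Agent.MVD.Stmts

/-!
MVD, row KP2: a letter which occurs twice, in two different blocks, keeps its blocks.
-/

set_option autoImplicit false

namespace Pool.Agent.MVD.H77

open Pool.Agent.Helper14_MV Pool.Agent.Helper2_MV

theorem bw_cons (a : ℕ) (R : List ℕ) (B : ℕ → List ℕ) :
    Bw (a :: R) B = B a ++ [3 * a + 2] ++ Bw R B := by
  unfold Bw
  rw [List.flatMap_cons]

theorem bw_append (R S : List ℕ) (B : ℕ → List ℕ) : Bw (R ++ S) B = Bw R B ++ Bw S B := by
  unfold Bw
  rw [List.flatMap_append]

theorem sfr_count {l : List ℕ} (h : SFr l) (q : ℕ) : l.count (3 * q + 2) = 0 := by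
  rw [List.count_eq_zero]
  intro hm
  have := h _ hm
  omega

theorem filt_sfr {l : List ℕ} (h : SFr l) (c q : ℕ) :
    l.filter (fun i => i == c || i == 3 * q + 2) = List.replicate (l.count c) c := by
  rw [← List.filter_beq]
  apply List.filter_congr
  intro i hi
  have h1 := h i hi
  have h2 : i ≠ 3 * q + 2 := by
    rintro rfl
    omega
  simp [h2]

theorem filt_notMem {c q : ℕ} (hc : c % 3 ≠ 2) (B : ℕ → List ℕ) : ∀ (R : List ℕ),
    (∀ r ∈ R, SFr (B r)) → q ∉ R →
    (Bw R B).filter (fun i => i == c || i == 3 * q + 2)
      = List.replicate ((R.map fun r => (B r).count c).sum) c := by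
  intro R
  induction R with
  | nil =>
    intro _ _
    rfl
  | cons a R ih =>
    intro hB hq
    rw [bw_cons, List.filter_append, List.filter_append, filt_sfr (hB a List.mem_cons_self),
      ih (fun r hr => hB r (List.mem_cons_of_mem a hr))
        (fun h => hq (List.mem_cons_of_mem a h))]
    have h1 : [3 * a + 2].filter (fun i => i == c || i == 3 * q + 2) = [] := by
      rw [List.filter_cons_of_neg, List.filter_nil]
      have h2 : a ≠ q := fun h => hq (h ▸ List.mem_cons_self)
      have h3 : 3 * a + 2 ≠ c := by
        rintro rfl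
        omega
      simp [h3, h2]
    rw [h1, List.append_nil, List.replicate_append_replicate, List.map_cons, List.sum_cons]

theorem filt_mem {c q : ℕ} (hc : c % 3 ≠ 2) (B : ℕ → List ℕ) (R₁ R₂ e : List ℕ)
    (hB : ∀ r ∈ R₁ ++ q :: R₂, SFr (B r)) (he : SFr e) (h1 : q ∉ R₁) (h2 : q ∉ R₂) :
    (Bw (R₁ ++ q :: R₂) B ++ e).filter (fun i => i == c || i == 3 * q + 2)
      = List.replicate (((R₁ ++ [q]).map fun r => (B r).count c).sum) c ++ (3 * q + 2) ::
        List.replicate ((R₂.map fun r => (B r).count c).sum + e.count c) c := by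
  rw [bw_append, bw_cons, List.filter_append, List.filter_append, List.filter_append,
    List.filter_append, filt_notMem hc B R₁ (fun r hr => hB r (List.mem_append_left _ hr)) h1,
    filt_notMem hc B R₂ (fun r hr => hB r (List.mem_append_right _ (List.mem_cons_of_mem q hr))) h2,
    filt_sfr (hB q (List.mem_append_right _ List.mem_cons_self)), filt_sfr he]
  have h3 : [3 * q + 2].filter (fun i => i == c || i == 3 * q + 2) = [3 * q + 2] := by
    rw [List.filter_cons_of_pos, List.filter_nil]
    simp
  rw [h3, List.map_append, List.sum_append, List.map_cons, List.map_nil, List.sum_cons,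
    List.sum_nil, add_zero, ← List.replicate_append_replicate, ← List.replicate_append_replicate]
  simp only [List.append_assoc, List.cons_append, List.nil_append]

theorem count_bw {c : ℕ} (hc : c % 3 ≠ 2) (B : ℕ → List ℕ) : ∀ (R : List ℕ),
    (Bw R B).count c = (R.map fun r => (B r).count c).sum := by
  intro R
  induction R with
  | nil => rfl
  | cons a R ih =>
    rw [bw_cons, List.count_append, List.count_append, ih, List.map_cons, List.sum_cons]
    have h1 : [3 * a + 2].count c = 0 := by
      rw [List.count_eq_zero, List.mem_singleton]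
      rintro rfl
      omega
    rw [h1, add_zero]

theorem count_two (β : FIC) (h2 : Iso2 β) {w w' : List ℕ} (h : RR β w w') {c : ℕ}
    (hw : w.count c = 2) : w'.count c = 2 := by
  have e : ∀ l : List ℕ, l.flatMap (fun i => if i = c then [0] else [])
      = List.replicate (l.count c) 0 := by
    intro l
    induction l with
    | nil => rfl
    | cons a l ih =>
      rw [List.flatMap_cons, ih]
      by_cases ha : a = c
      · rw [if_pos ha, ha, List.count_cons_self, List.replicate_succ]
        rfl
      · rw [if_neg ha, List.count_cons_of_ne ha]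
        rfl
  have h1 := h.sub (fun i => if i = c then [0] else [])
  rw [e, e, hw] at h1
  have h3 := congrArg List.length (h2 _ h1)
  rw [List.length_replicate] at h3
  exact h3

theorem sum_two {r s : ℕ} (hrs : r ≠ s) : ∀ R : List ℕ,
    (R.map fun q => if q = r ∨ q = s then 1 else 0).sum = R.count r + R.count s := by
  intro R
  induction R with
  | nil => rfl
  | cons a R ih =>
    rw [List.map_cons, List.sum_cons, ih]
    by_cases h1 : a = r
    · subst h1
      rw [if_pos (Or.inl rfl), List.count_cons_self, List.count_cons_of_ne hrs]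
      omega
    · by_cases h2 : a = s
      · subst h2
        rw [if_pos (Or.inr rfl), List.count_cons_self, List.count_cons_of_ne h1]
        omega
      · rw [if_neg (by tauto), List.count_cons_of_ne h1, List.count_cons_of_ne h2]
        omega

/-- the combinatorial core -/
theorem core (N : ℕ) (A A' : ℕ → ℕ) (ε : ℕ) (hf : ∀ n < N, A (n + 1) ≤ A n + 1)
    (hm : ∀ n < N, A n ≤ A (n + 1)) (hm' : ∀ n < N, A' n ≤ A' (n + 1)) (h0 : A 0 = 0)
    (h0' : A' 0 = 0) (hN : A N = 2) (hN' : A' N + ε = 2)
    (hiff : ∀ n < N, (A (n + 1) = 1 ↔ A' (n + 1) = 1)) :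
    (∀ n ≤ N, A n = A' n) ∧ ε = 0 := by
  have mono : ∀ (A : ℕ → ℕ), (∀ n < N, A n ≤ A (n + 1)) → ∀ i j, i ≤ j → j ≤ N → A i ≤ A j := by
    intro A hA i j hij
    induction j, hij using Nat.le_induction with
    | base => intro _; exact le_rfl
    | succ j hij ih =>
      intro hj
      exact (ih (by omega)).trans (hA j (by omega))
  have hex : ∃ n, 1 ≤ A n ∧ n ≤ N := ⟨N, by omega, le_rfl⟩
  classical
  obtain ⟨i, ⟨hi1, hiN⟩, hmin⟩ : ∃ i, (1 ≤ A i ∧ i ≤ N) ∧ ∀ j < i, ¬ (1 ≤ A j ∧ j ≤ N) :=
    ⟨Nat.find hex, Nat.find_spec hex, fun j hj => Nat.find_min hex hj⟩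
  have hi0 : 0 < i := by
    rcases Nat.eq_zero_or_pos i with h | h
    · subst h
      omega
    · exact h
  obtain ⟨k, rfl⟩ : ∃ k, i = k + 1 := ⟨i - 1, by omega⟩
  have hk := hmin k (by omega)
  have hAi : A (k + 1) = 1 := by
    have := hf k (by omega)
    have hk0 : A k = 0 := by
      by_contra hne
      exact hk ⟨by omega, by omega⟩
    omega
  have hAi' : A' (k + 1) = 1 := (hiff k (by omega)).1 hAi
  have hall : ∀ n ≤ N, A n = A' n := by
    intro n hn
    rcases Nat.eq_zero_or_pos n with h | h
    · subst h
      rw [h0, h0']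
    · obtain ⟨m, rfl⟩ : ∃ m, n = m + 1 := ⟨n - 1, by omega⟩
      have hi := hiff m (by omega)
      have hle2 : A (m + 1) ≤ 2 := by
        rw [← hN]
        exact mono A hm _ _ hn le_rfl
      have hle2' : A' (m + 1) ≤ 2 := by
        have := mono A' hm' _ _ hn le_rfl
        omega
      rcases Nat.lt_or_ge (m + 1) (k + 1) with hlt | hge
      · have h1 := hmin (m + 1) hlt
        have h2 : A (m + 1) = 0 := by
          by_contra hne
          exact h1 ⟨by omega, hn⟩
        have h3 := mono A' hm' _ _ hlt.le hiN
        omega
      · have h1 := mono A hm _ _ hge hn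
        have h2 := mono A' hm' _ _ hge hn
        omega
  refine ⟨hall, ?_⟩
  have := hall N le_rfl
  omega

theorem kp2 : Kp2Stmt := by
  intro β h2 h3 R B B' e hR hB hB' he hRR c r s hc hr hs hrs hcnt
  have hcount : (R.map fun q => (B q).count c).sum = 2 := by
    rw [List.map_congr_left (fun q hq => hcnt q hq), sum_two hrs,
      List.count_eq_one_of_mem hR hr, List.count_eq_one_of_mem hR hs]
  have hT' : (R.map fun q => (B' q).count c).sum + e.count c = 2 := by
    have h4 := count_two β h2 hRR (c := c) (by rw [count_bw hc]; exact hcount)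
    rw [List.count_append, count_bw hc] at h4
    exact h4
  have hstep : ∀ (g : ℕ → ℕ) (n : ℕ) (hn : n < R.length),
      ((R.take (n + 1)).map g).sum = ((R.take n).map g).sum + g (R[n]) := by
    intro g n hn
    rw [List.take_succ_eq_append_getElem hn, List.map_append, List.sum_append, List.map_cons,
      List.map_nil, List.sum_cons, List.sum_nil, add_zero]
  have hcore := core R.length
    (fun n => ((R.take n).map fun q => (B q).count c).sum)
    (fun n => ((R.take n).map fun q => (B' q).count c).sum) (e.count c)
    (fun n hn => by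
      show ((R.take (n + 1)).map fun q => (B q).count c).sum ≤ _
      rw [hstep _ n hn, hcnt _ (List.getElem_mem hn)]
      split_ifs <;> omega)
    (fun n hn => by
      show _ ≤ ((R.take (n + 1)).map fun q => (B q).count c).sum
      rw [hstep _ n hn]
      omega)
    (fun n hn => by
      show _ ≤ ((R.take (n + 1)).map fun q => (B' q).count c).sum
      rw [hstep _ n hn]
      omega)
    (by simp) (by simp) (by rw [List.take_length]; exact hcount)
    (by rw [List.take_length]; exact hT')
    (fun n hn => by
      have hdec : R = R.take n ++ R[n] :: R.drop (n + 1) := by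
        rw [← List.drop_eq_getElem_cons hn, List.take_append_drop]
      have hnd : (R.take n ++ R[n] :: R.drop (n + 1)).Nodup := by rw [← hdec]; exact hR
      rw [List.nodup_append, List.nodup_cons] at hnd
      have hq1 : R[n] ∉ R.take n := fun h => hnd.2.2 _ h _ List.mem_cons_self rfl
      have hq2 : R[n] ∉ R.drop (n + 1) := hnd.2.1.1
      have htake : R.take (n + 1) = R.take n ++ [R[n]] := List.take_succ_eq_append_getElem hn
      have hF := hRR.filter (fun i => i == c || i == 3 * R[n] + 2)
      have e1 : Bw R B = Bw (R.take n ++ R[n] :: R.drop (n + 1)) B ++ [] := by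
        rw [List.append_nil, ← hdec]
      have e2 : Bw R B' ++ e = Bw (R.take n ++ R[n] :: R.drop (n + 1)) B' ++ e := by
        rw [← hdec]
      rw [e1, e2, filt_mem hc B _ _ [] (by rw [← hdec]; exact hB)
        (fun x hx => absurd hx (List.not_mem_nil)) hq1 hq2,
        filt_mem hc B' _ _ e (by rw [← hdec]; exact hB') he hq1 hq2, ← htake] at hF
      have hne : c ≠ 3 * R[n] + 2 := by
        intro h
        omega
      have hi := rep_iff h3 hne hF
      have t1 : ((R.take (n + 1)).map fun q => (B q).count c).sum
          + ((R.drop (n + 1)).map fun q => (B q).count c).sum = 2 := by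
        rw [← List.sum_append, ← List.map_append, List.take_append_drop]
        exact hcount
      have t2 : ((R.take (n + 1)).map fun q => (B' q).count c).sum
          + ((R.drop (n + 1)).map fun q => (B' q).count c).sum + e.count c = 2 := by
        rw [← List.sum_append, ← List.map_append, List.take_append_drop]
        exact hT'
      rw [List.count_nil] at hi
      show ((R.take (n + 1)).map fun q => (B q).count c).sum = 1 ↔
        ((R.take (n + 1)).map fun q => (B' q).count c).sum = 1
      omega)
  refine ⟨fun q hq => ?_, hcore.2⟩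
  obtain ⟨n, hn, hqn⟩ := List.getElem_of_mem hq
  have h5 := hcore.1 (n + 1) (by omega)
  have h6 := hcore.1 n (by omega)
  have h7 := hstep (fun q => (B q).count c) n hn
  have h8 := hstep (fun q => (B' q).count c) n hn
  have h9 := hcnt q hq
  rw [← hqn] at h9 ⊢
  rw [← h9]
  omega

end Pool.Agent.MVD.H77
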